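import Mathlib

/-! An infinite `B₂[2]` set of large upper density: definitions and the window lemmas. -/

set_option autoImplicit false

namespace Pool.Agent.MP_1609a8_nt.B93

/-- No three different representations. -/
def B2 (A : Set ℕ) : Prop := ∀ a1 ∈ A, ∀ b1 ∈ A, ∀ a2 ∈ A, ∀ b2 ∈ A, ∀ a3 ∈ A, ∀ b3 ∈ A,
  a1 ≤ b1 → a2 ≤ b2 → a3 ≤ b3 → a1 + b1 = a2 + b2 → a1 + b1 = a3 + b3 →
    a1 = a2 ∨ a1 = a3 ∨ a2 = a3

/-- Sidon modulo `m`. -/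
def SM (m : ℕ) (D : Set ℕ) : Prop := ∀ a ∈ D, ∀ b ∈ D, ∀ c ∈ D, ∀ d ∈ D, a + b = c + d →
  (a % m = c % m ∧ b % m = d % m) ∨ (a % m = d % m ∧ b % m = c % m)

def InW (h x : ℕ) : Prop :=
  (3 * h ≤ x ∧ x < 5 * h) ∨ (7 * h ≤ x ∧ x < 9 * h) ∨ (14 * h ≤ x ∧ x < 18 * h)

def U (b : ℕ) : List ℕ := if b = 1 then [1, 3, 7, 8] else [2, 4, 7, 8]

theorem fin3 : ∀ b ∈ [0, 1], ∀ b' ∈ [0, 1], ∀ u1 ∈ U b, ∀ v1 ∈ U b', ∀ u2 ∈ U b, ∀ v2 ∈ U b',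
    u1 + v1 = u2 + v2 → u1 = u2 ∨ ∀ u3 ∈ U b, ∀ v3 ∈ U b', u1 + v1 = u3 + v3 →
      u1 = u3 ∨ u2 = u3 := by decide +kernel

theorem fin2 : ∀ b ∈ [0, 1], ∀ b' ∈ [0, 1], ∀ u1 ∈ U b, ∀ v1 ∈ U b', ∀ u2 ∈ U b, ∀ v2 ∈ U b',
    u1 + v1 = u2 + v2 → u1 = u2 ∨ (10 ≤ 2 * (u1 + v1) + b + b' ∧ 2 * (u1 + v1) + b + b' ≤ 12) ∨
      18 ≤ 2 * (u1 + v1) + b + b' := by decide +kernel

/-- The half period of a residue. -/
def hf (h r : ℕ) : ℕ := if h ≤ r then 1 else 0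

theorem hf_mem (h r : ℕ) : hf h r ∈ [0, 1] := by
  unfold hf; split_ifs <;> simp

theorem dec {h x : ℕ} (hx : InW h x) :
    ∃ u ∈ U (hf h (x % (2 * h))), x = 2 * h * u + x % (2 * h) := by
  have h0 : 0 < 2 * h := by unfold InW at hx; omega
  have e := Nat.div_add_mod x (2 * h)
  have l := Nat.mod_lt x h0
  refine ⟨x / (2 * h), ?_, e.symm⟩
  have b : x / (2 * h) < 9 := by
    rw [Nat.div_lt_iff_lt_mul h0]; unfold InW at hx; omega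
  generalize x / (2 * h) = u at e b
  generalize x % (2 * h) = r at e l
  unfold InW at hx
  unfold U hf
  by_cases c : h ≤ r
  · simp only [c, if_true]
    interval_cases u <;> first | omega | simp
  · simp only [c, if_false]
    interval_cases u <;> first | omega | simp

theorem core2 {h x1 y1 x2 y2 : ℕ} (a1 : InW h x1) (b1 : InW h y1) (a2 : InW h x2) (b2 : InW h y2)
    (ex : x1 % (2 * h) = x2 % (2 * h)) (ey : y1 % (2 * h) = y2 % (2 * h))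
    (s : x1 + y1 = x2 + y2) (w : InW h (x1 + y1)) : x1 = x2 := by
  have h0 : 0 < 2 * h := by unfold InW at a1; omega
  obtain ⟨u1, m1, e1⟩ := dec a1
  obtain ⟨v1, n1, f1⟩ := dec b1
  obtain ⟨u2, m2, e2⟩ := dec a2
  obtain ⟨v2, n2, f2⟩ := dec b2
  have l1 := Nat.mod_lt x1 h0
  have l2 := Nat.mod_lt y1 h0
  rw [← ex] at m2 e2
  rw [← ey] at n2 f2
  generalize x1 % (2 * h) = r at *
  generalize y1 % (2 * h) = r' at *
  have t : u1 + v1 = u2 + v2 := by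
    apply Nat.eq_of_mul_eq_mul_left h0
    rw [mul_add, mul_add]; omega
  have hs : x1 + y1 = h * (2 * (u1 + v1)) + r + r' := by rw [e1, f1]; ring
  have g1 : h * hf h r ≤ r ∧ r < h * hf h r + h := by unfold hf; split_ifs <;> omega
  have g2 : h * hf h r' ≤ r' ∧ r' < h * hf h r' + h := by unfold hf; split_ifs <;> omega
  have ec : h * (2 * (u1 + v1) + hf h r + hf h r') =
      h * (2 * (u1 + v1)) + h * hf h r + h * hf h r' := by ring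
  rcases fin2 _ (hf_mem h r) _ (hf_mem h r') u1 m1 v1 n1 u2 m2 v2 n2 t with c | ⟨c, c'⟩ | c
  · rw [e1, e2, c]
  · have k := Nat.mul_le_mul_left h c
    have k' := Nat.mul_le_mul_left h c'
    unfold InW at w
    omega
  · have k := Nat.mul_le_mul_left h c
    unfold InW at w
    omega

theorem core3 {h x1 y1 x2 y2 x3 y3 : ℕ} (a1 : InW h x1) (b1 : InW h y1) (a2 : InW h x2)
    (b2 : InW h y2) (a3 : InW h x3) (b3 : InW h y3)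
    (ex : x1 % (2 * h) = x2 % (2 * h)) (ey : y1 % (2 * h) = y2 % (2 * h))
    (ex' : x1 % (2 * h) = x3 % (2 * h)) (ey' : y1 % (2 * h) = y3 % (2 * h))
    (s : x1 + y1 = x2 + y2) (s' : x1 + y1 = x3 + y3) : x1 = x2 ∨ x1 = x3 ∨ x2 = x3 := by
  have h0 : 0 < 2 * h := by unfold InW at a1; omega
  obtain ⟨u1, m1, e1⟩ := dec a1
  obtain ⟨v1, n1, f1⟩ := dec b1
  obtain ⟨u2, m2, e2⟩ := dec a2
  obtain ⟨v2, n2, f2⟩ := dec b2
  obtain ⟨u3, m3, e3⟩ := dec a3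
  obtain ⟨v3, n3, f3⟩ := dec b3
  rw [← ex] at m2 e2
  rw [← ey] at n2 f2
  rw [← ex'] at m3 e3
  rw [← ey'] at n3 f3
  generalize x1 % (2 * h) = r at *
  generalize y1 % (2 * h) = r' at *
  have t : u1 + v1 = u2 + v2 := by
    apply Nat.eq_of_mul_eq_mul_left h0
    rw [mul_add, mul_add]; omega
  have t' : u1 + v1 = u3 + v3 := by
    apply Nat.eq_of_mul_eq_mul_left h0
    rw [mul_add, mul_add]; omega
  rcases fin3 _ (hf_mem h r) _ (hf_mem h r') u1 m1 v1 n1 u2 m2 v2 n2 t with c | c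
  · left; rw [e1, e2, c]
  · rcases c u3 m3 v3 n3 t' with c | c
    · right; left; rw [e1, e3, c]
    · right; right; rw [e2, e3, c]

theorem win2 {h : ℕ} {D : Set ℕ} (hD : SM (2 * h) D) {a1 b1 a2 b2 : ℕ} (d1 : a1 ∈ D) (e1 : b1 ∈ D)
    (d2 : a2 ∈ D) (e2 : b2 ∈ D) (w1 : InW h a1) (z1 : InW h b1) (w2 : InW h a2) (z2 : InW h b2)
    (l1 : a1 ≤ b1) (l2 : a2 ≤ b2) (s : a1 + b1 = a2 + b2) (w : InW h (a1 + b1)) : a1 = a2 := by
  rcases hD a1 d1 b1 e1 a2 d2 b2 e2 s with ⟨x, y⟩ | ⟨x, y⟩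
  · exact core2 w1 z1 w2 z2 x y s w
  · have := core2 w1 z1 z2 w2 x y (by omega) w
    omega

theorem win3 {h : ℕ} {D : Set ℕ} (hD : SM (2 * h) D) : B2 {x | x ∈ D ∧ InW h x} := by
  rintro a1 ⟨d1, w1⟩ b1 ⟨e1, z1⟩ a2 ⟨d2, w2⟩ b2 ⟨e2, z2⟩ a3 ⟨d3, w3⟩ b3 ⟨e3, z3⟩ l1 l2 l3 s s'
  rcases hD a1 d1 b1 e1 a2 d2 b2 e2 s with ⟨x, y⟩ | ⟨x, y⟩ <;>
    rcases hD a1 d1 b1 e1 a3 d3 b3 e3 s' with ⟨x', y'⟩ | ⟨x', y'⟩
  · exact core3 w1 z1 w2 z2 w3 z3 x y x' y' s s'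
  · have := core3 w1 z1 w2 z2 z3 w3 x y x' y' s (by omega)
    omega
  · have := core3 w1 z1 z2 w2 w3 z3 x y x' y' (by omega) s'
    omega
  · have := core3 w1 z1 z2 w2 z3 w3 x y x' y' (by omega) (by omega)
    omega

end Pool.Agent.MP_1609a8_nt.B93
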