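import Pool.Agent.MP_1609a8_nt.B93.Defs

/-! Ruzsa sets, gluing of a new block, and the union of the chain. -/

set_option autoImplicit false

namespace Pool.Agent.MP_1609a8_nt.B93

open Classical in
theorem ruz (M : ℕ) : ∃ (h q : ℕ) (D : Set ℕ), M ≤ q ∧ 2 * h = (q + 1) * q ∧ SM (2 * h) D ∧
    ∀ t, q ≤ ((Finset.Ico t (t + 2 * h)).filter (· ∈ D)).card := by
  obtain ⟨p, hp, pp⟩ := Nat.exists_infinite_primes (M + 3)
  obtain ⟨q, rfl⟩ : ∃ q, p = q + 1 := ⟨p - 1, by omega⟩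
  have : Fact (q + 1).Prime := ⟨pp⟩
  obtain ⟨g, hg⟩ := IsCyclic.exists_ofOrder_eq_natCard (α := (ZMod (q + 1))ˣ)
  have ho : orderOf g = q := by
    rw [hg, Nat.card_eq_fintype_card, ZMod.card_units]; simp
  obtain ⟨h, hh⟩ : ∃ h, 2 * h = (q + 1) * q := by
    obtain ⟨k, hk⟩ := Nat.even_mul_succ_self q
    exact ⟨k, by rw [mul_comm (q + 1) q, hk]; ring⟩
  have co : Nat.Coprime (q + 1) q := by simp
  have key : ∀ a c : ℕ, ((g ^ a : (ZMod (q + 1))ˣ) : ZMod (q + 1)) = a →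
      ((g ^ c : (ZMod (q + 1))ˣ) : ZMod (q + 1)) = c → (a : ZMod (q + 1)) = c →
        a % (2 * h) = c % (2 * h) := by
    intro a c ha hc e
    have e1 : a ≡ c [MOD (q + 1)] := (ZMod.natCast_eq_natCast_iff _ _ _).1 e
    have e2 : a ≡ c [MOD q] := by
      have : g ^ a = g ^ c := Units.ext (by rw [ha, hc, e])
      rwa [pow_eq_pow_iff_modEq, ho] at this
    rw [hh]
    exact (Nat.modEq_and_modEq_iff_modEq_mul co).1 ⟨e1, e2⟩
  refine ⟨h, q, {n | ((g ^ n : (ZMod (q + 1))ˣ) : ZMod (q + 1)) = n}, by omega, hh, ?_, ?_⟩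
  · intro a ha b hb c hc d hd s
    simp only [Set.mem_setOf_eq] at ha hb hc hd
    have s1 : (a : ZMod (q + 1)) + b = c + d := by exact_mod_cast congrArg (Nat.cast (R := ZMod (q + 1))) s
    have s2 : (a : ZMod (q + 1)) * b = c * d := by
      rw [← ha, ← hb, ← hc, ← hd, ← Units.val_mul, ← Units.val_mul, ← pow_add, ← pow_add, s]
    have s3 : ((a : ZMod (q + 1)) - c) * (a - d) = 0 := by linear_combination (a : ZMod (q + 1)) * s1 - s2
    rcases mul_eq_zero.1 s3 with e | e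
    · exact Or.inl ⟨key a c ha hc (sub_eq_zero.1 e), key b d hb hd (by linear_combination s1 - e)⟩
    · exact Or.inr ⟨key a d ha hd (sub_eq_zero.1 e), key b c hb hc (by linear_combination s1 - e)⟩
  · intro t
    have h0 : 0 < 2 * h := by rw [hh]; apply Nat.mul_pos <;> omega
    have ex : ∀ i : ℕ, ∃ n, t ≤ n ∧ n < t + 2 * h ∧ n ≡ i [MOD q] ∧
        ((g ^ n : (ZMod (q + 1))ˣ) : ZMod (q + 1)) = n := by
      intro i
      obtain ⟨n0, c1, c2⟩ := Nat.chineseRemainder co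
        (((g ^ i : (ZMod (q + 1))ˣ) : ZMod (q + 1))).val i
      have em : t + (n0 + (2 * h - 1) * t) % (2 * h) ≡ n0 [MOD (2 * h)] := by
        have a1 : t + (n0 + (2 * h - 1) * t) % (2 * h) ≡ t + (n0 + (2 * h - 1) * t) [MOD (2 * h)] :=
          Nat.ModEq.add_left t (Nat.mod_modEq _ _)
        have a2 : t + (n0 + (2 * h - 1) * t) = n0 + 2 * h * t := by
          obtain ⟨k, hk⟩ : ∃ k, 2 * h = k + 1 := ⟨2 * h - 1, by omega⟩
          rw [hk]; simp; ring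
        rw [a2] at a1
        exact a1.trans (by unfold Nat.ModEq; simp)
      have lt := Nat.mod_lt (n0 + (2 * h - 1) * t) h0
      generalize (n0 + (2 * h - 1) * t) % (2 * h) = r at em lt
      rw [hh] at em
      obtain ⟨m1, m2⟩ := (Nat.modEq_and_modEq_iff_modEq_mul co).2 em
      refine ⟨t + r, by omega, by omega, m2.trans c2, ?_⟩
      have : g ^ (t + r) = g ^ i := by
        rw [pow_eq_pow_iff_modEq, ho]; exact m2.trans c2
      rw [this, (ZMod.natCast_eq_natCast_iff _ _ _).2 (m1.trans c1), ZMod.natCast_zmod_val]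
    choose f f1 f2 f3 f4 using ex
    calc q = (Finset.range q).card := (Finset.card_range q).symm
      _ ≤ _ := by
        apply Finset.card_le_card_of_injOn f
        · intro i _
          simp only [Finset.coe_filter, Finset.mem_Ico, Set.mem_setOf_eq]
          exact ⟨⟨f1 i, f2 i⟩, f4 i⟩
        · intro i hi j hj e
          have hi' : i < q := by simpa using hi
          have hj' : j < q := by simpa using hj
          have : i ≡ j [MOD q] := (f3 i).symm.trans (e ▸ f3 j)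
          exact Nat.ModEq.eq_of_lt_of_lt this hi' hj'

open Classical in
theorem close_card {h K : ℕ} {D : Set ℕ} (hD : SM (2 * h) D) (hK : K < h) (B : Finset ℕ)
    (hB : ∀ x ∈ B, x ∈ D ∧ x < 18 * h) :
    (B.filter fun b => ∃ δ ∈ Finset.Icc 1 K, b + δ ∈ B).card ≤ K * 9 := by
  have h0 : 0 < 2 * h := by omega
  have sub : (B.filter fun b => ∃ δ ∈ Finset.Icc 1 K, b + δ ∈ B) ⊆
      (Finset.Icc 1 K).biUnion fun δ => B.filter fun b => b + δ ∈ B := by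
    intro b hb
    simp only [Finset.mem_filter, Finset.mem_biUnion] at hb ⊢
    obtain ⟨h1, δ, h2, h3⟩ := hb
    exact ⟨δ, h2, h1, h3⟩
  refine (Finset.card_le_card sub).trans ((Finset.card_biUnion_le_card_mul _ _ 9 ?_).trans (by simp))
  intro δ hδ
  rw [Finset.mem_Icc] at hδ
  calc _ ≤ (Finset.range 9).card := ?_
    _ = 9 := Finset.card_range 9
  apply Finset.card_le_card_of_injOn (fun b => b / (2 * h))
  · intro b hb
    simp only [Finset.coe_filter, Set.mem_setOf_eq] at hb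
    have := (hB b hb.1).2
    simp only [Finset.coe_range, Set.mem_Iio]
    rw [Nat.div_lt_iff_lt_mul h0]; omega
  · intro b hb c hc e
    simp only [Finset.coe_filter, Set.mem_setOf_eq] at hb hc
    have e' : b / (2 * h) = c / (2 * h) := e
    rcases hD b (hB b hb.1).1 (c + δ) (hB _ hc.2).1 c (hB c hc.1).1 (b + δ) (hB _ hb.2).1
      (by omega) with ⟨x, _⟩ | ⟨x, _⟩
    · rw [← Nat.div_add_mod b (2 * h), ← Nat.div_add_mod c (2 * h), e', x]
    · have : 2 * h ∣ b + δ - b := (Nat.modEq_iff_dvd' (by omega)).1 x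
      have := Nat.le_of_dvd (by omega) this
      omega

open Classical in
theorem glue {h q K : ℕ} {D : Set ℕ} (hD : SM (2 * h) D) (hK : K < h)
    (hq : ∀ t, q ≤ ((Finset.Ico t (t + 2 * h)).filter (· ∈ D)).card) (A : Finset ℕ)
    (hA : B2 A) (hAK : ∀ a ∈ A, a ≤ K) :
    ∃ B : Finset ℕ, B2 (↑(A ∪ B)) ∧ (∀ b ∈ B, 0 < b ∧ b ≤ 18 * h) ∧ 4 * q ≤ B.card + 12 * K := by
  set B0 : Finset ℕ := (Finset.range (18 * h)).filter fun x => x ∈ D ∧ InW h x with hB0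
  have m0 : ∀ x, x ∈ B0 ↔ x ∈ D ∧ InW h x := by
    intro x
    simp only [hB0, Finset.mem_filter, Finset.mem_range]
    exact ⟨fun t => t.2, fun t => ⟨by have := t.2; unfold InW at this; omega, t⟩⟩
  have c0 : 4 * q ≤ B0.card := by
    have sub : ((Finset.Ico (3 * h) (3 * h + 2 * h)).filter (· ∈ D) ∪
        (Finset.Ico (7 * h) (7 * h + 2 * h)).filter (· ∈ D)) ∪
        ((Finset.Ico (14 * h) (14 * h + 2 * h)).filter (· ∈ D) ∪
        (Finset.Ico (16 * h) (16 * h + 2 * h)).filter (· ∈ D)) ⊆ B0 := by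
      intro x hx
      simp only [Finset.mem_union, Finset.mem_filter, Finset.mem_Ico] at hx
      rw [m0]
      unfold InW
      rcases hx with (t | t) | (t | t) <;> exact ⟨t.2, by omega⟩
    have := Finset.card_le_card sub
    rw [Finset.card_union_of_disjoint, Finset.card_union_of_disjoint,
      Finset.card_union_of_disjoint] at this
    · have a1 := hq (3 * h)
      have a2 := hq (7 * h)
      have a3 := hq (14 * h)
      have a4 := hq (16 * h)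
      omega
    all_goals
      rw [Finset.disjoint_left]
      intro x hx hy
      simp only [Finset.mem_union, Finset.mem_filter, Finset.mem_Ico] at hx hy
      omega
  set B : Finset ℕ := B0.filter fun b => InW h (b + K) ∧ ∀ δ ∈ Finset.Icc 1 K, b + δ ∉ B0 with hB
  have m1 : ∀ x, x ∈ B → x ∈ D ∧ InW h x ∧ InW h (x + K) ∧ ∀ y ∈ B, x < y → x + K < y := by
    intro x hx
    rw [hB, Finset.mem_filter] at hx
    refine ⟨((m0 x).1 hx.1).1, ((m0 x).1 hx.1).2, hx.2.1, fun y hy l => ?_⟩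
    by_contra c
    apply hx.2.2 (y - x) (Finset.mem_Icc.2 (by omega))
    rw [show x + (y - x) = y by omega]
    exact (Finset.mem_filter.1 hy).1
  refine ⟨B, ?_, ?_, ?_⟩
  · have lo : ∀ x ∈ B, 3 * h ≤ x := fun x hx => by
      have := (m1 x hx).2.1; unfold InW at this; omega
    have mix : ∀ a ∈ A, ∀ b ∈ B, ∀ a' ∈ A, ∀ b' ∈ B, a + b = a' + b' → a = a' := by
      intro a ha b hb a' ha' b' hb' s
      have k1 := hAK a ha
      have k2 := hAK a' ha'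
      have k3 := (m1 b hb).2.2.2 b' hb'
      have k4 := (m1 b' hb').2.2.2 b hb
      omega
    have two : ∀ a ∈ A, ∀ b ∈ B, ∀ x ∈ B, ∀ y ∈ B, ∀ x' ∈ B, ∀ y' ∈ B, x ≤ y → x' ≤ y' →
        a + b = x + y → a + b = x' + y' → x = x' := by
      intro a ha b hb x hx y hy x' hx' y' hy' l l' s s'
      refine win2 hD (m1 x hx).1 (m1 y hy).1 (m1 x' hx').1 (m1 y' hy').1 (m1 x hx).2.1
        (m1 y hy).2.1 (m1 x' hx').2.1 (m1 y' hy').2.1 l l' (by omega) ?_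
      have k1 := hAK a ha
      have k2 := (m1 b hb).2.1
      have k3 := (m1 b hb).2.2.1
      unfold InW at k2 k3 ⊢
      omega
    have cl : ∀ a ∈ (↑(A ∪ B) : Set ℕ), ∀ b ∈ (↑(A ∪ B) : Set ℕ), a ≤ b →
        (a ∈ A ∧ b ∈ A ∧ a + b < 3 * h) ∨ (a ∈ A ∧ b ∈ B ∧ 3 * h ≤ a + b) ∨
          (a ∈ B ∧ b ∈ B ∧ 3 * h ≤ a + b) := by
      intro a ha b hb l
      rw [Finset.mem_coe, Finset.mem_union] at ha hb
      rcases ha with ha | ha <;> rcases hb with hb | hb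
      · have := hAK a ha; have := hAK b hb; exact Or.inl ⟨ha, hb, by omega⟩
      · have := lo b hb; exact Or.inr (Or.inl ⟨ha, hb, by omega⟩)
      · have := lo a ha; have := hAK b hb; omega
      · have := lo a ha; exact Or.inr (Or.inr ⟨ha, hb, by omega⟩)
    intro a1 d1 b1 e1 a2 d2 b2 e2 a3 d3 b3 e3 l1 l2 l3 s s'
    rcases cl a1 d1 b1 e1 l1 with ⟨x1, y1, z1⟩ | ⟨x1, y1, z1⟩ | ⟨x1, y1, z1⟩ <;>
      rcases cl a2 d2 b2 e2 l2 with ⟨x2, y2, z2⟩ | ⟨x2, y2, z2⟩ | ⟨x2, y2, z2⟩ <;>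
      rcases cl a3 d3 b3 e3 l3 with ⟨x3, y3, z3⟩ | ⟨x3, y3, z3⟩ | ⟨x3, y3, z3⟩ <;>
      first
        | omega
        | exact hA a1 x1 b1 y1 a2 x2 b2 y2 a3 x3 b3 y3 l1 l2 l3 s s'
        | exact Or.inl (mix a1 x1 b1 y1 a2 x2 b2 y2 s)
        | exact Or.inr (Or.inl (mix a1 x1 b1 y1 a3 x3 b3 y3 s'))
        | exact Or.inr (Or.inr (mix a2 x2 b2 y2 a3 x3 b3 y3 (by omega)))
        | exact Or.inr (Or.inr (two a1 x1 b1 y1 a2 x2 b2 y2 a3 x3 b3 y3 l2 l3 s s'))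
        | exact Or.inr (Or.inl (two a2 x2 b2 y2 a1 x1 b1 y1 a3 x3 b3 y3 l1 l3 (by omega) (by omega)))
        | exact Or.inl (two a3 x3 b3 y3 a1 x1 b1 y1 a2 x2 b2 y2 l1 l2 (by omega) (by omega))
        | exact win3 hD a1 ⟨(m1 _ x1).1, (m1 _ x1).2.1⟩ b1 ⟨(m1 _ y1).1, (m1 _ y1).2.1⟩
            a2 ⟨(m1 _ x2).1, (m1 _ x2).2.1⟩ b2 ⟨(m1 _ y2).1, (m1 _ y2).2.1⟩
            a3 ⟨(m1 _ x3).1, (m1 _ x3).2.1⟩ b3 ⟨(m1 _ y3).1, (m1 _ y3).2.1⟩ l1 l2 l3 s s'
  · intro b hb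
    have := (m1 b hb).2.1
    unfold InW at this
    omega
  · have c1 := close_card hD hK B0 fun x hx =>
      ⟨((m0 x).1 hx).1, by have := ((m0 x).1 hx).2; unfold InW at this; omega⟩
    have sub : B0 ⊆ (B ∪ B0.filter fun b => ∃ δ ∈ Finset.Icc 1 K, b + δ ∈ B0) ∪
        ((Finset.Ico (5 * h - K) (5 * h) ∪ Finset.Ico (9 * h - K) (9 * h)) ∪
          Finset.Ico (18 * h - K) (18 * h)) := by
      intro x hx
      by_cases c : InW h (x + K)
      · by_cases c' : ∃ δ ∈ Finset.Icc 1 K, x + δ ∈ B0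
        · exact Finset.mem_union_left _ (Finset.mem_union_right _ (Finset.mem_filter.2 ⟨hx, c'⟩))
        · refine Finset.mem_union_left _ (Finset.mem_union_left _ (Finset.mem_filter.2 ⟨hx, c, ?_⟩))
          exact fun δ hδ t => c' ⟨δ, hδ, t⟩
      · refine Finset.mem_union_right _ ?_
        have := ((m0 x).1 hx).2
        unfold InW at this c
        simp only [Finset.mem_union, Finset.mem_Ico]
        omega
    have c2 := Finset.card_le_card sub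
    have c3 := Finset.card_union_le (B ∪ B0.filter fun b => ∃ δ ∈ Finset.Icc 1 K, b + δ ∈ B0)
      ((Finset.Ico (5 * h - K) (5 * h) ∪ Finset.Ico (9 * h - K) (9 * h)) ∪
          Finset.Ico (18 * h - K) (18 * h))
    have c4 := Finset.card_union_le B (B0.filter fun b => ∃ δ ∈ Finset.Icc 1 K, b + δ ∈ B0)
    have c5 := Finset.card_union_le (Finset.Ico (5 * h - K) (5 * h) ∪ Finset.Ico (9 * h - K) (9 * h))
      (Finset.Ico (18 * h - K) (18 * h))
    have c6 := Finset.card_union_le (Finset.Ico (5 * h - K) (5 * h)) (Finset.Ico (9 * h - K) (9 * h))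
    simp only [Nat.card_Ico] at c5 c6
    omega

theorem step (A : Finset ℕ) (hA : B2 A) (h0 : ∀ a ∈ A, 0 < a) (j : ℕ) :
    ∃ (A' : Finset ℕ) (N : ℕ), A ⊆ A' ∧ B2 A' ∧ (∀ a ∈ A', 0 < a) ∧ j ≤ N ∧ (∀ a ∈ A', a ≤ N) ∧
      (4 / 3 - 1 / ((j : ℝ) + 1)) * √(N : ℝ) ≤ A'.card := by
  obtain ⟨K, hK⟩ : ∃ K, ∀ a ∈ A, a ≤ K := ⟨A.sup id, fun a ha => Finset.le_sup (f := id) ha⟩
  obtain ⟨h, q, D, hM, hh, hD, hq⟩ := ruz ((4 * K + 2) * (j + 1))
  have k1 : 4 * K + 2 ≤ q := le_trans (Nat.le_mul_of_pos_right _ (by omega)) hM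
  have k2 : j + 1 ≤ q := le_trans (Nat.le_mul_of_pos_left _ (by omega)) hM
  have k3 : q ≤ (q + 1) * q := Nat.le_mul_of_pos_left _ (by omega)
  obtain ⟨B, b1, b2, b3⟩ := glue hD (K := K) (by omega) hq A hA hK
  refine ⟨A ∪ B, 18 * h, Finset.subset_union_left, b1, ?_, by omega, ?_, ?_⟩
  · intro a ha
    rcases Finset.mem_union.1 ha with t | t
    · exact h0 a t
    · exact (b2 a t).1
  · intro a ha
    rcases Finset.mem_union.1 ha with t | t
    · have := hK a t; omega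
    · exact (b2 a t).2
  · have c1 : (B.card : ℝ) ≤ (A ∪ B).card := by
      exact_mod_cast Finset.card_le_card Finset.subset_union_right
    have c2 : (4 * q : ℝ) ≤ B.card + 12 * K := by exact_mod_cast b3
    have c3 : (2 * h : ℝ) = (q + 1) * q := by exact_mod_cast hh
    have c4 : ((4 * K + 2) * (j + 1) : ℝ) ≤ q := by exact_mod_cast hM
    have q0 : (0 : ℝ) ≤ q := Nat.cast_nonneg q
    have j0 : (0 : ℝ) < j + 1 := by positivity
    have c5 : √((18 * h : ℕ) : ℝ) ≤ 3 * (q + 1) := by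
      apply Real.sqrt_le_iff.2
      refine ⟨by positivity, ?_⟩
      push_cast
      nlinarith
    have c6 : 1 / ((j : ℝ) + 1) ≤ 1 := by
      rw [div_le_one j0]; linarith [(Nat.cast_nonneg j : (0 : ℝ) ≤ j)]
    have c7 : (4 * K + 2 : ℝ) ≤ 1 / ((j : ℝ) + 1) * q := by
      rw [one_div, inv_mul_eq_div, le_div_iff₀ j0]; exact c4
    have c8 : 0 < 1 / ((j : ℝ) + 1) := by positivity
    have c9 := mul_le_mul_of_nonneg_left c5 (show (0 : ℝ) ≤ 4 / 3 - 1 / ((j : ℝ) + 1) by linarith)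
    nlinarith

theorem b2_card {A : Set ℕ} (hA : B2 A) (n : ℕ) :
    {x : ℕ × ℕ | x.1 ∈ A ∧ x.2 ∈ A ∧ x.1 ≤ x.2 ∧ x.1 + x.2 = n}.encard ≤ 2 := by
  by_contra c
  have c' : (3 : ℕ∞) ≤ {x : ℕ × ℕ | x.1 ∈ A ∧ x.2 ∈ A ∧ x.1 ≤ x.2 ∧ x.1 + x.2 = n}.encard :=
    Order.add_one_le_of_lt (not_le.1 c)
  obtain ⟨t, ht, e⟩ := Set.exists_subset_encard_eq c'
  obtain ⟨x, y, z, xy, xz, yz, rfl⟩ := Set.encard_eq_three.1 e
  obtain ⟨a1, b1, l1, s1⟩ := ht (show x ∈ _ by simp)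
  obtain ⟨a2, b2, l2, s2⟩ := ht (show y ∈ _ by simp)
  obtain ⟨a3, b3, l3, s3⟩ := ht (show z ∈ _ by simp)
  rcases hA _ a1 _ b1 _ a2 _ b2 _ a3 _ b3 l1 l2 l3 (by omega) (by omega) with e | e | e
  · exact xy (Prod.ext e (by omega))
  · exact xz (Prod.ext e (by omega))
  · exact yz (Prod.ext e (by omega))

theorem main : ∃ A : Set ℕ, 0 ∉ A ∧
    (∀ n, {x : ℕ × ℕ | x.1 ∈ A ∧ x.2 ∈ A ∧ x.1 ≤ x.2 ∧ x.1 + x.2 = n}.encard ≤ 2) ∧
    ∀ ε : ℝ, 0 < ε → ∃ᶠ n : ℕ in Filter.atTop,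
      (4 / 3 - ε) * √(n : ℝ) ≤ ((A ∩ Set.Icc 1 n).ncard : ℝ) := by
  have st : ∀ (A : {A : Finset ℕ // B2 A ∧ ∀ a ∈ A, 0 < a}) (j : ℕ),
      ∃ (A' : {A : Finset ℕ // B2 A ∧ ∀ a ∈ A, 0 < a}) (N : ℕ), A.1 ⊆ A'.1 ∧ j ≤ N ∧
        (∀ a ∈ A'.1, a ≤ N) ∧ (4 / 3 - 1 / ((j : ℝ) + 1)) * √(N : ℝ) ≤ A'.1.card := by
    intro A j
    obtain ⟨A', N, h1, h2, h3, h4, h5, h6⟩ := step A.1 A.2.1 A.2.2 j
    exact ⟨⟨A', h2, h3⟩, N, h1, h4, h5, h6⟩
  choose F N f1 f2 f3 f4 using st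
  let S : ℕ → {A : Finset ℕ // B2 A ∧ ∀ a ∈ A, 0 < a} := fun j =>
    Nat.rec ⟨∅, by intro a ha; simp at ha, by simp⟩ (fun j A => F A j) j
  have mono : Monotone fun j => (S j).1 := monotone_nat_of_le_succ fun j => f1 (S j) j
  refine ⟨{a | ∃ j, a ∈ (S j).1}, ?_, b2_card ?_, ?_⟩
  · rintro ⟨j, hj⟩
    exact lt_irrefl _ ((S j).2.2 0 hj)
  · rintro a1 ⟨i1, d1⟩ b1 ⟨j1, e1⟩ a2 ⟨i2, d2⟩ b2 ⟨j2, e2⟩ a3 ⟨i3, d3⟩ b3 ⟨j3, e3⟩
    have up : ∀ i x, i ≤ i1 + j1 + i2 + j2 + i3 + j3 → x ∈ (S i).1 →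
        x ∈ ((S (i1 + j1 + i2 + j2 + i3 + j3)).1 : Set ℕ) := fun i x l hx => mono l hx
    exact (S (i1 + j1 + i2 + j2 + i3 + j3)).2.1 a1 (up _ _ (by omega) d1) b1 (up _ _ (by omega) e1)
      a2 (up _ _ (by omega) d2) b2 (up _ _ (by omega) e2) a3 (up _ _ (by omega) d3)
      b3 (up _ _ (by omega) e3)
  · intro ε hε
    rw [Filter.frequently_atTop]
    intro M
    obtain ⟨j0, hj0⟩ := exists_nat_one_div_lt hε
    refine ⟨N (S (M + j0)) (M + j0), le_trans (by omega) (f2 _ _), ?_⟩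
    have c1 := f4 (S (M + j0)) (M + j0)
    have c2 : 1 / (((M + j0 : ℕ) : ℝ) + 1) ≤ 1 / ((j0 : ℝ) + 1) := by
      apply one_div_le_one_div_of_le (by positivity)
      push_cast
      linarith [(Nat.cast_nonneg M : (0 : ℝ) ≤ M)]
    have c3 : (F (S (M + j0)) (M + j0)).1.card ≤
        ({a | ∃ j, a ∈ (S j).1} ∩ Set.Icc 1 (N (S (M + j0)) (M + j0))).ncard := by
      rw [← Set.ncard_coe_finset]
      refine Set.ncard_le_ncard ?_ ((Set.finite_Icc _ _).subset Set.inter_subset_right)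
      intro a ha
      exact ⟨⟨M + j0 + 1, ha⟩, (F (S (M + j0)) (M + j0)).2.2 a ha, f3 _ _ a ha⟩
    have c4 : ((F (S (M + j0)) (M + j0)).1.card : ℝ) ≤ _ := Nat.cast_le.2 c3
    have c5 := mul_le_mul_of_nonneg_right (show 4 / 3 - ε ≤ 4 / 3 - 1 / (((M + j0 : ℕ) : ℝ) + 1) by
      linarith) (Real.sqrt_nonneg ((N (S (M + j0)) (M + j0) : ℕ) : ℝ))
    linarith

end Pool.Agent.MP_1609a8_nt.B93
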